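import Pool.Agent.H97.BF.Vert

/-!
# From vertices to 0/1 points for matrices with small subdeterminants (helper97)
-/

set_option autoImplicit false

namespace Pool.Agent.H97.BF

open Finset Pool.Agent.H97.ZL Matrix

variable {m n : ℕ}

/-- `∑ a_l adj(B)_{l i} = det (B with row i replaced by a)` -/
lemma sum_adjugate {k : ℕ} (B : Matrix (Fin k) (Fin k) ℤ) (a : Fin k → ℤ) (i : Fin k) :
    ∑ l, a l * B.adjugate l i = (B.updateRow i a).det := by
  rw [← cramer_transpose_apply, cramer_eq_adjugate_mulVec, ← adjugate_transpose]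
  simp [mulVec, dotProduct, mul_comm]

/-- entries of the adjugate are subdeterminants up to sign -/
lemma abs_adjugate {k : ℕ} (B : Matrix (Fin (k + 1)) (Fin (k + 1)) ℤ) (i j : Fin (k + 1)) :
    |B.adjugate i j| = |(B.submatrix j.succAbove i.succAbove).det| := by
  rw [adjugate_fin_succ_eq_det_submatrix, abs_mul, abs_pow]
  simp

/-- some entry of the adjugate is not divisible by `q ≥ 2`, if `|det B| = q` -/
lemma exists_not_dvd {k : ℕ} (B : Matrix (Fin k) (Fin k) ℤ) (q : ℤ) (hq : 2 ≤ q)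
    (hB : |B.det| = q) : ∃ j i, ¬ q ∣ B.adjugate j i := by
  by_contra hcon
  push Not at hcon
  choose M hM using hcon
  have h1 : B.adjugate = q • (Matrix.of M) := by
    ext j i
    rw [hM j i]; simp
  have h2 := mul_adjugate B
  rw [h1, mul_smul_comm] at h2
  have hq0 : q ≠ 0 := by omega
  have h3 : ∃ s : ℤ, B.det = s * q ∧ |s| = 1 := by
    rcases abs_cases B.det with h | h
    · exact ⟨1, by omega, by simp⟩
    · exact ⟨-1, by omega, by simp⟩
  obtain ⟨s, hs, hs1⟩ := h3
  have h4 : B * Matrix.of M = s • (1 : Matrix (Fin k) (Fin k) ℤ) := by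
    ext a b
    have := congrFun (congrFun h2 a) b
    rw [hs] at this
    simp only [Matrix.smul_apply, smul_eq_mul] at this ⊢
    have h5 : q * ((B * Matrix.of M) a b) = q * (s * (1 : Matrix (Fin k) (Fin k) ℤ) a b) := by
      rw [this]; ring
    exact mul_left_cancel₀ hq0 h5
  have h5 : IsUnit B.det := by
    have hs' : s * s = 1 := by
      have := abs_mul_abs_self s
      rw [hs1] at this
      linarith
    have h6 : B * (s • Matrix.of M) = 1 := by
      rw [mul_smul_comm, h4, smul_smul, hs', one_smul]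
    have h7 := congrArg Matrix.det h6
    rw [det_mul, det_one] at h7
    exact IsUnit.of_mul_eq_one _ h7
  rw [Int.isUnit_iff] at h5
  rcases h5 with h | h
  · rw [h] at hB; norm_num at hB; omega
  · rw [h] at hB; norm_num at hB; omega

/-- the columns of the adjugate determine the kernel modulo `q` -/
lemma adj_cong {k : ℕ} (B : Matrix (Fin k) (Fin k) ℤ) (Y : Fin k → ℤ) (q : ℤ)
    (hY : ∀ i, q ∣ (B *ᵥ Y) i) (i j : Fin k)
    (hc : IsCoprime q (B.adjugate j i)) :
    ∀ l, q ∣ Y l * B.adjugate j i - Y j * B.adjugate l i := by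
  set v : Fin k → ℤ := fun l => Y l * B.adjugate j i - Y j * B.adjugate l i with hv
  set C := B.updateRow i (Pi.single j 1) with hC
  have hdet : C.det = B.adjugate j i := by rw [adjugate_apply]
  have h1 : ∀ l, q ∣ (C *ᵥ v) l := by
    intro l
    by_cases hl : l = i
    · subst hl
      have : (C *ᵥ v) l = v j := by
        simp [hC, mulVec, dotProduct, updateRow_self, Pi.single_apply]
      rw [this]
      simp [hv]
    · have h2 : (C *ᵥ v) l = B.adjugate j i * (B *ᵥ Y) l - Y j * (B * B.adjugate) l i := by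
        simp only [hC, mulVec, dotProduct, updateRow_ne hl, hv, mul_apply, mul_sum]
        rw [← sum_sub_distrib]
        exact sum_congr rfl fun x _ => by ring
      rw [h2, mul_adjugate, Matrix.smul_apply, one_apply_ne hl, smul_zero, mul_zero, sub_zero]
      exact Dvd.dvd.mul_left (hY l) _
  intro l
  have h3 : (C.adjugate *ᵥ (C *ᵥ v)) l = C.det * v l := by
    rw [mulVec_mulVec, adjugate_mul, smul_mulVec, one_mulVec]
    simp
  have h4 : q ∣ (C.adjugate *ᵥ (C *ᵥ v)) l := by
    simp only [mulVec, dotProduct]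
    exact Finset.dvd_sum fun x _ => Dvd.dvd.mul_left (by simpa [mulVec, dotProduct] using h1 x) _
  rw [h3, hdet] at h4
  exact hc.dvd_of_dvd_mul_left h4

/-- the numerators of the fractional coordinates of a vertex -/
lemma exists_num (A : Matrix (Fin m) (Fin n) ℤ) (y : Fin n → ℝ) (hy : ∀ j, 0 ≤ y j ∧ y j ≤ 1)
    {k : ℕ} (e : Fin k → Fin n) (r : Fin k → Fin m) (hv : VertAt A y e r) :
    ∃ Y : Fin k → ℤ, (∀ l, y (e l) * |((A.submatrix r e).det : ℝ)| = Y l) ∧
      (∀ l, 0 < Y l ∧ Y l < |(A.submatrix r e).det|) ∧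
      ∀ i, |(A.submatrix r e).det| ∣ ((A.submatrix r e) *ᵥ Y) i := by
  obtain ⟨einj, hfr, hdet, hint⟩ := hv
  set B := A.submatrix r e with hB
  -- the integral values on the fractional part
  have h1 : ∀ i, ∃ c : ℤ, ev (fun l => A (r i) (e l)) (fun l => y (e l)) = c := by
    intro i
    obtain ⟨c, hc⟩ := hint i
    obtain ⟨c', hc'⟩ := ev_rest (A (r i)) e einj y (by
      intro j hj
      by_contra hcon
      push Not at hcon
      exact hj ((hfr j).1 ⟨lt_of_le_of_ne (hy j).1 (Ne.symm hcon.1),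
        lt_of_le_of_ne (hy j).2 hcon.2⟩))
    refine ⟨c - c', ?_⟩
    push_cast
    rw [← hc, hc']
    ring
  choose c hc using h1
  obtain ⟨s, hs, hs1⟩ : ∃ s : ℤ, |B.det| = s * B.det ∧ s * s = 1 := by
    rcases abs_cases B.det with h | h
    · exact ⟨1, by omega, by norm_num⟩
    · exact ⟨-1, by omega, by norm_num⟩
  have hsR : |(B.det : ℝ)| = (s : ℝ) * (B.det : ℝ) := by
    rw [← Int.cast_abs, hs, Int.cast_mul]
  have h2 : ∀ l, (B.det : ℝ) * y (e l) = ((B.adjugate *ᵥ c) l : ℤ) := by
    intro l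
    have h3 : ((B.adjugate *ᵥ c) l : ℝ) =
        ∑ i, (B.adjugate l i : ℝ) * ∑ l', (B i l' : ℝ) * y (e l') := by
      simp only [mulVec, dotProduct]
      push_cast
      exact sum_congr rfl fun i _ => by rw [← hc i]; rfl
    rw [h3]
    simp only [mul_sum]
    rw [sum_comm]
    have h4 : ∀ l', ∑ i, (B.adjugate l i : ℝ) * ((B i l' : ℝ) * y (e l')) =
        ((B.adjugate * B) l l' : ℤ) * y (e l') := by
      intro l'
      rw [mul_apply]
      push_cast
      rw [sum_mul]
      exact sum_congr rfl fun i _ => by ring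
    rw [sum_congr rfl fun l' _ => h4 l', adjugate_mul]
    rw [Finset.sum_eq_single l]
    · simp
    · intro b _ hb
      simp [one_apply_ne hb.symm]
    · simp
  refine ⟨fun l => s * (B.adjugate *ᵥ c) l, fun l => ?_, fun l => ?_, fun i => ?_⟩
  · rw [hsR, Int.cast_mul, ← h2 l]; ring
  · have h3 : ((s * (B.adjugate *ᵥ c) l : ℤ) : ℝ) = |(B.det : ℝ)| * y (e l) := by
      rw [hsR, Int.cast_mul, ← h2 l]; ring
    have h4 : 0 < |(B.det : ℝ)| := abs_pos.2 (by exact_mod_cast hdet)
    obtain ⟨h5, h6⟩ := (hfr (e l)).2 ⟨l, rfl⟩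
    constructor
    · have : (0 : ℝ) < ((s * (B.adjugate *ᵥ c) l : ℤ) : ℝ) := by rw [h3]; positivity
      exact_mod_cast this
    · have : ((s * (B.adjugate *ᵥ c) l : ℤ) : ℝ) < ((|B.det| : ℤ) : ℝ) := by
        rw [h3, Int.cast_abs]; nlinarith
      exact_mod_cast this
  · have h3 : (B *ᵥ fun l => s * (B.adjugate *ᵥ c) l) i = s * (B *ᵥ (B.adjugate *ᵥ c)) i := by
      simp only [mulVec, dotProduct, mul_sum]
      exact sum_congr rfl fun l _ => sum_congr rfl fun l' _ => by ring
    rw [h3, mulVec_mulVec, mul_adjugate, smul_mulVec, one_mulVec]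
    refine ⟨c i, ?_⟩
    rw [hs]
    simp only [Pi.smul_apply, smul_eq_mul]
    ring

/-- the value of a row on a column of the adjugate, extended by zero -/
lemma ev_extend (A : Matrix (Fin m) (Fin n) ℤ) {k : ℕ} (e : Fin k → Fin n)
    (einj : Function.Injective e) (r : Fin k → Fin m) (i : Fin k) (t : ℝ) (i' : Fin m) :
    ev (A i') (Function.extend e (fun l => t * ((A.submatrix r e).adjugate l i : ℝ)) 0) =
      t * ((A.submatrix (Function.update r i i') e).det : ℝ) := by
  rw [ev_supp (A i') e einj _ (fun j hj => by rw [Function.extend_apply' _ _ _ hj]; rfl)]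
  simp only [einj.extend_apply]
  have h1 : A.submatrix (Function.update r i i') e =
      (A.submatrix r e).updateRow i (fun l => A i' (e l)) := by
    ext a b
    by_cases h : a = i
    · subst h; simp
    · simp [h]
  rw [h1, ← sum_adjugate]
  unfold ev
  push_cast
  rw [mul_sum]
  exact sum_congr rfl fun l _ => by ring

/-- **Finishing step.** -/
lemma finish (A : Matrix (Fin m) (Fin n) ℤ) (y : Fin n → ℝ) (hy : ∀ j, 0 ≤ y j ∧ y j ≤ 1)
    {k : ℕ} (e : Fin k → Fin n) (r : Fin k → Fin m) (hv : VertAt A y e r) (Y : Fin k → ℤ)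
    (hY : ∀ l, y (e l) * |((A.submatrix r e).det : ℝ)| = Y l)
    (i : Fin k) (s : ℤ)
    (hs : ∀ l, |(A.submatrix r e).det| ∣ Y l - s * (A.submatrix r e).adjugate l i)
    (hb : ∀ l, |s * (A.submatrix r e).adjugate l i| ≤ |(A.submatrix r e).det|)
    (D : ℤ) (hD : ∀ i', |(A.submatrix (Function.update r i i') e).det| ≤ D) :
    ∃ z : Fin n → ℤ, (∀ j, z j = 0 ∨ z j = 1) ∧
      (∀ j, (y j = 0 → z j = 0) ∧ (y j = 1 → z j = 1)) ∧
      ∀ i', |ev (A i') (fun j => (z j : ℝ)) - ev (A i') y| ≤
        |(s : ℝ)| * D / |((A.submatrix r e).det : ℝ)| := by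
  obtain ⟨einj, hfr, hdet, hint⟩ := hv
  set B := A.submatrix r e with hB
  have hq : 0 < |(B.det : ℝ)| := abs_pos.2 (by exact_mod_cast hdet)
  have hqZ : 0 < |B.det| := abs_pos.2 hdet
  set w : Fin n → ℝ := Function.extend e
    (fun l => (s / |(B.det : ℝ)|) * (B.adjugate l i : ℝ)) 0 with hw
  have hwe : ∀ l, w (e l) = (s / |(B.det : ℝ)|) * (B.adjugate l i : ℝ) := fun l =>
    einj.extend_apply _ _ l
  have hwo : ∀ j, (¬ ∃ l, e l = j) → w j = 0 := fun j hj => by
    rw [hw, Function.extend_apply' _ _ _ hj]; rfl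
  have hz : ∀ j, ∃ c : ℤ, (c = 0 ∨ c = 1) ∧ ((c : ℝ) = y j - w j) ∧
      ((y j = 0 → c = 0) ∧ (y j = 1 → c = 1)) := by
    intro j
    by_cases hj : ∃ l, e l = j
    · obtain ⟨l, rfl⟩ := hj
      obtain ⟨c, hc⟩ := hs l
      have h1 : (c : ℝ) = y (e l) - w (e l) := by
        have h2 : ((Y l - s * B.adjugate l i : ℤ) : ℝ) = ((|B.det| * c : ℤ) : ℝ) := by rw [hc]
        simp only [Int.cast_mul, Int.cast_sub, Int.cast_abs] at h2
        rw [hwe, ← sub_eq_zero]
        have h3 : |(B.det : ℝ)| * ((c : ℝ) - (y (e l) - s / |(B.det : ℝ)| * (B.adjugate l i : ℝ)))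
            = 0 := by
          field_simp
          have := hY l
          nlinarith
        exact (mul_eq_zero.1 h3).resolve_left hq.ne'
      have hfrac := (hfr (e l)).2 ⟨l, rfl⟩
      have h4 : |w (e l)| ≤ 1 := by
        rw [hwe, div_mul_eq_mul_div, abs_div, abs_abs, div_le_one hq]
        have : ((|s * B.adjugate l i| : ℤ) : ℝ) ≤ ((|B.det| : ℤ) : ℝ) := by exact_mod_cast hb l
        simpa only [Int.cast_mul, Int.cast_abs] using this
      refine ⟨c, ?_, h1, ?_⟩
      · rw [abs_le] at h4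
        have h5 : (-1 : ℝ) < c := by rw [h1]; linarith
        have h6 : (c : ℝ) < 2 := by rw [h1]; linarith
        have h5' : (-1 : ℤ) < c := by exact_mod_cast h5
        have h6' : c < 2 := by exact_mod_cast h6
        omega
      · constructor
        · intro h; exact absurd h hfrac.1.ne'
        · intro h; exact absurd h hfrac.2.ne
    · have h1 : y j = 0 ∨ y j = 1 := by
        by_contra hcon
        push Not at hcon
        exact hj ((hfr j).1 ⟨lt_of_le_of_ne (hy j).1 (Ne.symm hcon.1),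
          lt_of_le_of_ne (hy j).2 hcon.2⟩)
      rcases h1 with h1 | h1
      · exact ⟨0, Or.inl rfl, by rw [h1, hwo j hj]; simp, fun _ => rfl, fun h => by
          rw [h1] at h; norm_num at h⟩
      · exact ⟨1, Or.inr rfl, by rw [h1, hwo j hj]; simp, fun h => by
          rw [h1] at h; norm_num at h, fun _ => rfl⟩
  choose z hz01 hzv hzk using hz
  refine ⟨z, hz01, hzk, fun i' => ?_⟩
  have h1 : (fun j => (z j : ℝ)) = y + -w := by
    ext j; rw [hzv j]; simp [sub_eq_add_neg]
  rw [h1, ev_add, ev_neg, add_sub_cancel_left, abs_neg, hw,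
    ev_extend A e einj r i (s / |(B.det : ℝ)|) i', abs_mul, abs_div, abs_abs]
  rw [div_mul_eq_mul_div]
  apply div_le_div_of_nonneg_right _ hq.le
  apply mul_le_mul_of_nonneg_left _ (abs_nonneg _)
  have := hD i'
  have h2 : ((|(A.submatrix (Function.update r i i') e).det| : ℤ) : ℝ) ≤ ((D : ℤ) : ℝ) := by
    exact_mod_cast this
  rwa [Int.cast_abs] at h2

end Pool.Agent.H97.BF
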