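import Pool.Agent.H97.BF.Core

/-!
# Rounding for matrices with small subdeterminants (helper97)
-/

set_option autoImplicit false

namespace Pool.Agent.H97.BF

open Finset Pool.Agent.H97.ZL Matrix

variable {m n : ℕ}

/-- no fractional coordinates: finished -/
lemma finish_zero (A : Matrix (Fin m) (Fin n) ℤ) (y : Fin n → ℝ) (hy : ∀ j, 0 ≤ y j ∧ y j ≤ 1)
    (h0 : ∀ j, ¬ (0 < y j ∧ y j < 1)) :
    ∃ z : Fin n → ℤ, (∀ j, z j = 0 ∨ z j = 1) ∧
      (∀ j, (y j = 0 → z j = 0) ∧ (y j = 1 → z j = 1)) ∧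
      ∀ i', |ev (A i') (fun j => (z j : ℝ)) - ev (A i') y| ≤ 0 := by
  have h : ∀ j, ∃ c : ℤ, (c = 0 ∨ c = 1) ∧ (c : ℝ) = y j := by
    intro j
    by_cases h1 : y j = 0
    · exact ⟨0, Or.inl rfl, by simp [h1]⟩
    · by_cases h2 : y j = 1
      · exact ⟨1, Or.inr rfl, by simp [h2]⟩
      · exact absurd ⟨lt_of_le_of_ne (hy j).1 (Ne.symm h1), lt_of_le_of_ne (hy j).2 h2⟩ (h0 j)
  choose z hz hzy using h
  refine ⟨z, hz, fun j => ⟨fun h => ?_, fun h => ?_⟩, fun i' => ?_⟩
  · have := hzy j; rw [h] at this; exact_mod_cast this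
  · have := hzy j; rw [h] at this; exact_mod_cast this
  · have : (fun j => (z j : ℝ)) = y := funext hzy
    rw [this, sub_self, abs_zero]

/-- subdeterminants `0, ±1, ±q`: from a vertex to a 0/1 point -/
lemma case_q (A : Matrix (Fin m) (Fin n) ℤ) (q : ℕ)
    (hA : ∀ (k : ℕ) (r : Fin k → Fin m) (c : Fin k → Fin n),
      |(A.submatrix r c).det| = 0 ∨ |(A.submatrix r c).det| = 1 ∨ |(A.submatrix r c).det| = q)
    (y : Fin n → ℝ) (hy : ∀ j, 0 ≤ y j ∧ y j ≤ 1)
    {k : ℕ} (e : Fin k → Fin n) (r : Fin k → Fin m) (hv : VertAt A y e r) :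
    ∃ z : Fin n → ℤ, (∀ j, z j = 0 ∨ z j = 1) ∧
      (∀ j, (y j = 0 → z j = 0) ∧ (y j = 1 → z j = 1)) ∧
      ∀ i', |ev (A i') (fun j => (z j : ℝ)) - ev (A i') y| ≤ ((q / 2 : ℕ) : ℝ) := by
  obtain ⟨Y, hY, hY01, hYd⟩ := exists_num A y hy e r hv
  have hv' := hv
  obtain ⟨einj, hfr, hdet, hint⟩ := hv
  rcases k with _ | k
  · obtain ⟨z, h1, h2, h3⟩ := finish_zero A y hy (fun j hj => by
      obtain ⟨l, _⟩ := (hfr j).1 hj
      exact l.elim0)
    exact ⟨z, h1, h2, fun i' => (h3 i').trans (by positivity)⟩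
  set B := A.submatrix r e with hB
  have hB' : |B.det| = q ∧ 2 ≤ (q : ℤ) := by
    have h1 := hY01 0
    rcases hA _ r e with h | h | h
    · exact absurd (abs_eq_zero.1 h) hdet
    · have := h1.2; rw [← hB] at h; rw [h] at this; omega
    · refine ⟨h, ?_⟩
      rw [← hB] at h
      rw [h] at h1; omega
  obtain ⟨hBq, hq2⟩ := hB'
  obtain ⟨j, i, hji⟩ := exists_not_dvd B q hq2 hBq
  have hadj : ∀ l, |B.adjugate l i| = 0 ∨ |B.adjugate l i| = 1 ∨ |B.adjugate l i| = q := by
    intro l
    rw [abs_adjugate, hB, submatrix_submatrix]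
    exact hA _ _ _
  have hunit : ∀ l, ¬ (q : ℤ) ∣ B.adjugate l i → B.adjugate l i = 1 ∨ B.adjugate l i = -1 := by
    intro l hl
    rcases hadj l with h | h | h
    · exact absurd (by rw [abs_eq_zero.1 h]; exact dvd_zero _) hl
    · rcases abs_eq (by norm_num : (0 : ℤ) ≤ 1) |>.1 h with h | h
      · exact Or.inl h
      · exact Or.inr h
    · exfalso
      apply hl
      rcases abs_eq (by omega : (0 : ℤ) ≤ (q : ℤ)) |>.1 h with h | h
      · rw [h]
      · rw [h]; exact (dvd_neg).2 dvd_rfl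
  have hu := hunit j hji
  have hsq : B.adjugate j i * B.adjugate j i = 1 := by
    rcases hu with h | h <;> rw [h] <;> norm_num
  have hcop : IsCoprime (q : ℤ) (B.adjugate j i) := ⟨0, B.adjugate j i, by rw [hsq]; ring⟩
  have hcong := adj_cong B Y q (fun i => by rw [← hBq]; exact hYd i) i j hcop
  -- the multiplier
  set s0 := Y j * B.adjugate j i with hs0
  have hYj := hY01 j
  rw [hBq] at hYj
  have hs0b : |s0| < q := by
    rw [hs0, abs_mul]
    have : |B.adjugate j i| = 1 := by rcases hu with h | h <;> rw [h] <;> norm_num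
    rw [this, mul_one, abs_of_pos hYj.1]
    exact hYj.2
  obtain ⟨s, hs, hsb⟩ : ∃ s : ℤ, (q : ℤ) ∣ s0 - s ∧ |s| ≤ ((q / 2 : ℕ) : ℤ) := by
    have hq2' : ((q / 2 : ℕ) : ℤ) = (q : ℤ) / 2 := by simp
    rw [hq2']
    rw [abs_lt] at hs0b
    by_cases h1 : s0 ≤ (q : ℤ) / 2
    · by_cases h2 : -((q : ℤ) / 2) ≤ s0
      · exact ⟨s0, by simp, abs_le.2 ⟨h2, h1⟩⟩
      · refine ⟨s0 + q, by simp, abs_le.2 ⟨by omega, by omega⟩⟩
    · refine ⟨s0 - q, by simp, abs_le.2 ⟨by omega, by omega⟩⟩
  have hs' : ∀ l, (q : ℤ) ∣ Y l - s * B.adjugate l i := by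
    intro l
    have h1 := hcong l
    have h2 : (q : ℤ) ∣ B.adjugate j i * (Y l * B.adjugate j i - Y j * B.adjugate l i) :=
      Dvd.dvd.mul_left h1 _
    have h3 : B.adjugate j i * (Y l * B.adjugate j i - Y j * B.adjugate l i) =
        Y l - s0 * B.adjugate l i := by
      have : B.adjugate j i * (Y l * B.adjugate j i - Y j * B.adjugate l i) =
        (B.adjugate j i * B.adjugate j i) * Y l - s0 * B.adjugate l i := by rw [hs0]; ring
      rw [this, hsq, one_mul]
    rw [h3] at h2
    have h4 : Y l - s * B.adjugate l i = (Y l - s0 * B.adjugate l i) +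
        (s0 - s) * B.adjugate l i := by ring
    rw [h4]
    exact dvd_add h2 (Dvd.dvd.mul_right hs _)
  have hab1 : ∀ l, |B.adjugate l i| = 1 := by
    intro l
    have h1 : ¬ (q : ℤ) ∣ B.adjugate l i := by
      intro hd
      have h2 : (q : ℤ) ∣ Y l := by
        have := dvd_add (hs' l) (Dvd.dvd.mul_left hd s)
        simpa using this
      have h3 := hY01 l
      rw [hBq] at h3
      have := Int.le_of_dvd h3.1 h2
      omega
    rcases hunit l h1 with h | h <;> rw [h] <;> norm_num
  have hle : ((q / 2 : ℕ) : ℤ) ≤ q := by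
    have : q / 2 ≤ q := Nat.div_le_self _ _
    exact_mod_cast this
  obtain ⟨z, hz, hzk, hzd⟩ := finish A y hy e r hv' Y hY i s
    (fun l => by rw [← hB, hBq]; exact hs' l)
    (fun l => by rw [← hB, abs_mul, hab1 l, mul_one, hBq]; exact hsb.trans hle) q
    (fun i' => by
      rcases hA _ (Function.update r i i') e with h | h | h <;> rw [h] <;> omega)
  refine ⟨z, hz, hzk, fun i' => (hzd i').trans ?_⟩
  have hqR : |((A.submatrix r e).det : ℝ)| = q := by
    rw [← Int.cast_abs, ← hB, hBq]; simp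
  rw [hqR]
  have hq0 : (0 : ℝ) < q := by
    have : (0 : ℤ) < q := by omega
    exact_mod_cast this
  have h5 : |(s : ℝ)| * (((q : ℕ) : ℤ) : ℝ) / (q : ℝ) = |(s : ℝ)| := by
    rw [Int.cast_natCast]; field_simp
  rw [h5]
  have h6 : ((|s| : ℤ) : ℝ) ≤ (((q / 2 : ℕ) : ℤ) : ℝ) := by exact_mod_cast hsb
  rw [Int.cast_abs, Int.cast_natCast] at h6
  exact h6

section Three

variable (A : Matrix (Fin m) (Fin n) ℤ)
  (hA : ∀ (k : ℕ) (r : Fin k → Fin m) (c : Fin k → Fin n), |(A.submatrix r c).det| ≤ 3)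

include hA

/-- determinant `±3`: one step -/
lemma case_three (y : Fin n → ℝ) (hy : ∀ j, 0 ≤ y j ∧ y j ≤ 1)
    {k : ℕ} (e : Fin k → Fin n) (r : Fin k → Fin m) (hv : VertAt A y e r)
    (h3 : |(A.submatrix r e).det| = 3) :
    ∃ z : Fin n → ℤ, (∀ j, z j = 0 ∨ z j = 1) ∧
      (∀ j, (y j = 0 → z j = 0) ∧ (y j = 1 → z j = 1)) ∧
      ∀ i', |ev (A i') (fun j => (z j : ℝ)) - ev (A i') y| ≤ 1 := by
  obtain ⟨Y, hY, hY01, hYd⟩ := exists_num A y hy e r hv
  have hv' := hv
  obtain ⟨einj, hfr, hdet, hint⟩ := hv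
  rcases k with _ | k
  · simp at h3
  set B := A.submatrix r e with hB
  obtain ⟨j, i, hji⟩ := exists_not_dvd B 3 (by norm_num) h3
  have hcop : IsCoprime (3 : ℤ) (B.adjugate j i) :=
    (Prime.coprime_iff_not_dvd Int.prime_three).2 hji
  have hcong := adj_cong B Y 3 (fun i => by rw [← h3]; exact hYd i) i j hcop
  have habs : ∀ l, |B.adjugate l i| ≤ 3 := by
    intro l
    rw [abs_adjugate, hB, submatrix_submatrix]
    exact hA _ _ _
  have hYj := hY01 j
  rw [h3] at hYj
  obtain ⟨s, hs1, hs⟩ : ∃ s : ℤ, |s| = 1 ∧ (3 : ℤ) ∣ s * B.adjugate j i - Y j := by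
    have h1 : B.adjugate j i % 3 = 1 ∨ B.adjugate j i % 3 = 2 := by omega
    have h2 : Y j = 1 ∨ Y j = 2 := by omega
    rcases h1 with h1 | h1 <;> rcases h2 with h2 | h2
    · exact ⟨1, by norm_num, by omega⟩
    · exact ⟨-1, by norm_num, by omega⟩
    · exact ⟨-1, by norm_num, by omega⟩
    · exact ⟨1, by norm_num, by omega⟩
  have hs' : ∀ l, (3 : ℤ) ∣ Y l - s * B.adjugate l i := by
    intro l
    have h1 := hcong l
    have h2 : (3 : ℤ) ∣ B.adjugate j i * (Y l - s * B.adjugate l i) := by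
      have : B.adjugate j i * (Y l - s * B.adjugate l i) =
          (Y l * B.adjugate j i - Y j * B.adjugate l i) -
            (s * B.adjugate j i - Y j) * B.adjugate l i := by ring
      rw [this]
      exact dvd_sub h1 (Dvd.dvd.mul_right hs _)
    exact hcop.dvd_of_dvd_mul_left h2
  obtain ⟨z, hz, hzk, hzd⟩ := finish A y hy e r hv' Y hY i s
    (fun l => by rw [← hB, h3]; exact hs' l)
    (fun l => by rw [← hB, abs_mul, hs1, one_mul, h3]; exact habs l) 3
    (fun i' => hA _ _ _)
  refine ⟨z, hz, hzk, fun i' => (hzd i').trans ?_⟩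
  have hqR : |((A.submatrix r e).det : ℝ)| = 3 := by
    rw [← Int.cast_abs, ← hB, h3]; norm_num
  have hsR : |(s : ℝ)| = 1 := by rw [← Int.cast_abs, hs1]; norm_num
  rw [hqR, hsR]
  norm_num

/-- determinant `±2`: one or two steps -/
lemma case_two (y : Fin n → ℝ) (hy : ∀ j, 0 ≤ y j ∧ y j ≤ 1)
    {k : ℕ} (e : Fin k → Fin n) (r : Fin k → Fin m) (hv : VertAt A y e r)
    (h2 : |(A.submatrix r e).det| = 2) :
    ∃ z : Fin n → ℤ, (∀ j, z j = 0 ∨ z j = 1) ∧
      (∀ j, (y j = 0 → z j = 0) ∧ (y j = 1 → z j = 1)) ∧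
      ∀ i', |ev (A i') (fun j => (z j : ℝ)) - ev (A i') y| ≤ 3 / 2 := by
  obtain ⟨Y, hY, hY01, hYd⟩ := exists_num A y hy e r hv
  have hv' := hv
  obtain ⟨einj, hfr, hdet, hint⟩ := hv
  rcases k with _ | k
  · simp at h2
  set B := A.submatrix r e with hB
  obtain ⟨j, i, hji⟩ := exists_not_dvd B 2 (by norm_num) h2
  have hcop : IsCoprime (2 : ℤ) (B.adjugate j i) :=
    (Prime.coprime_iff_not_dvd Int.prime_two).2 hji
  have hcong := adj_cong B Y 2 (fun i => by rw [← h2]; exact hYd i) i j hcop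
  have habs : ∀ l, |B.adjugate l i| ≤ 3 := by
    intro l
    rw [abs_adjugate, hB, submatrix_submatrix]
    exact hA _ _ _
  have hY1 : ∀ l, Y l = 1 := by
    intro l
    have := hY01 l
    rw [h2] at this
    omega
  have hodd : ∀ l, ¬ (2 : ℤ) ∣ B.adjugate l i := by
    intro l hd
    have h1 := hcong l
    rw [hY1 l, hY1 j, one_mul, one_mul] at h1
    exact hji (by
      have := dvd_add h1 hd
      simpa using this)
  have hqR : |((A.submatrix r e).det : ℝ)| = 2 := by
    rw [← Int.cast_abs, ← hB, h2]; norm_num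
  have hyl : ∀ l, y (e l) = 1 / 2 := by
    intro l
    have := hY l
    rw [hB, hqR, hY1 l] at this
    push_cast at this
    linarith
  by_cases hsmall : ∀ l, |B.adjugate l i| ≤ 2
  · obtain ⟨z, hz, hzk, hzd⟩ := finish A y hy e r hv' Y hY i 1
      (fun l => by
        rw [← hB, h2, hY1 l, one_mul]
        have := hodd l
        omega)
      (fun l => by rw [← hB, one_mul, h2]; exact hsmall l) 3
      (fun i' => hA _ _ _)
    refine ⟨z, hz, hzk, fun i' => (hzd i').trans ?_⟩
    rw [hqR]
    norm_num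
  · push Not at hsmall
    obtain ⟨j0, hj0⟩ := hsmall
    -- the intermediate point
    set w : Fin n → ℝ := Function.extend e (fun l => (1 / 6 : ℝ) * (B.adjugate l i : ℝ)) 0 with hw
    have hwe : ∀ l, w (e l) = (1 / 6 : ℝ) * (B.adjugate l i : ℝ) := fun l =>
      einj.extend_apply _ _ l
    have hwo : ∀ j, (¬ ∃ l, e l = j) → w j = 0 := fun j hj => by
      rw [hw, Function.extend_apply' _ _ _ hj]; rfl
    have hwA : ∀ i', |ev (A i') w| ≤ 1 / 2 := by
      intro i'
      rw [hw, ev_extend A e einj r i (1 / 6) i', abs_mul]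
      have h3 : ((|(A.submatrix (Function.update r i i') e).det| : ℤ) : ℝ) ≤ ((3 : ℤ) : ℝ) := by
        exact_mod_cast hA _ _ _
      rw [Int.cast_abs] at h3
      rw [abs_of_pos (by norm_num : (0 : ℝ) < 1 / 6)]
      push_cast at h3 ⊢
      nlinarith
    have hwr : ∀ l, l ≠ i → ev (A (r l)) w = 0 := by
      intro l hl
      rw [hw, ev_extend A e einj r i (1 / 6) (r l)]
      have : (A.submatrix (Function.update r i (r l)) e).det = 0 := by
        apply Matrix.det_zero_of_row_eq (i := l) (j := i) hl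
        ext b
        simp [hl]
      rw [this]; simp
    set y' : Fin n → ℝ := y + -w with hy'
    have hcases : ∀ l, (B.adjugate l i = 1 ∧ y' (e l) = 1 / 3) ∨
        (B.adjugate l i = -1 ∧ y' (e l) = 2 / 3) ∨ (B.adjugate l i = 3 ∧ y' (e l) = 0) ∨
        (B.adjugate l i = -3 ∧ y' (e l) = 1) := by
      intro l
      have h1 := habs l
      have h3 := hodd l
      rw [abs_le] at h1
      have h4 : y' (e l) = 1 / 2 - 1 / 6 * (B.adjugate l i : ℝ) := by
        rw [hy', Pi.add_apply, Pi.neg_apply, hwe, hyl]; ring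
      have h5 : B.adjugate l i = 1 ∨ B.adjugate l i = -1 ∨ B.adjugate l i = 3 ∨
          B.adjugate l i = -3 := by omega
      rcases h5 with h5 | h5 | h5 | h5
      · left; exact ⟨h5, by rw [h4, h5]; norm_num⟩
      · right; left; exact ⟨h5, by rw [h4, h5]; norm_num⟩
      · right; right; left; exact ⟨h5, by rw [h4, h5]; norm_num⟩
      · right; right; right; exact ⟨h5, by rw [h4, h5]; norm_num⟩
    have hy'o : ∀ j, (¬ ∃ l, e l = j) → y' j = y j := fun j hj => by
      rw [hy', Pi.add_apply, Pi.neg_apply, hwo j hj]; ring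
    have hout : ∀ j, (¬ ∃ l, e l = j) → y j = 0 ∨ y j = 1 := by
      intro j hj
      by_contra hcon
      push Not at hcon
      exact hj ((hfr j).1 ⟨lt_of_le_of_ne (hy j).1 (Ne.symm hcon.1),
        lt_of_le_of_ne (hy j).2 hcon.2⟩)
    have hy'01 : ∀ j, 0 ≤ y' j ∧ y' j ≤ 1 := by
      intro j
      by_cases hj : ∃ l, e l = j
      · obtain ⟨l, rfl⟩ := hj
        rcases hcases l with h | h | h | h <;> rw [h.2] <;> norm_num
      · rw [hy'o j hj]; exact hy j
    obtain ⟨y2, hgood, k2, e2, r2, hv2⟩ := exists_vert A y' hy'01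
    -- `y2 = y'`
    have hy2 : y2 = y' := by
      set u : Fin n → ℝ := y2 + -y' with hu
      have hu0 : ∀ j, (y' j = 0 ∨ y' j = 1) → u j = 0 := by
        intro j hj
        rw [hu, Pi.add_apply, Pi.neg_apply]
        rcases hj with h | h
        · rw [(hgood.2.2 j).1 h, h]; ring
        · rw [(hgood.2.2 j).2 h, h]; ring
      have huo : ∀ j, (¬ ∃ l, e l = j) → u j = 0 := fun j hj =>
        hu0 j (by rw [hy'o j hj]; exact hout j hj)
      have hur : ∀ l, l ≠ i → ev (A (r l)) u = 0 := by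
        intro l hl
        obtain ⟨c, hc⟩ := hint l
        have h1 : ev (A (r l)) y' = c := by
          rw [hy', ev_add, ev_neg, hwr l hl, hc]; ring
        have h3 := hgood.2.1 (r l)
        rw [h1, Int.floor_intCast, Int.ceil_intCast] at h3
        rw [hu, ev_add, ev_neg, h1]
        linarith [h3.1, h3.2]
      have hsum : ∀ l, l ≠ i → ∑ l', (B l l' : ℝ) * u (e l') = 0 := by
        intro l hl
        have := hur l hl
        rw [ev_supp (A (r l)) e einj u huo] at this
        exact this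
      set t : ℝ := ∑ l', (B i l' : ℝ) * u (e l') with ht
      have hsolve : ∀ l, (B.det : ℝ) * u (e l) = (B.adjugate l i : ℝ) * t := by
        intro l
        have h1 : ∑ i', (B.adjugate l i' : ℝ) * ∑ l', (B i' l' : ℝ) * u (e l') =
            (B.adjugate l i : ℝ) * t := by
          rw [Finset.sum_eq_single i]
          · intro b _ hb
            rw [hsum b hb, mul_zero]
          · simp
        rw [← h1]
        simp only [mul_sum]
        rw [sum_comm]
        have h4 : ∀ l', ∑ i', (B.adjugate l i' : ℝ) * ((B i' l' : ℝ) * u (e l')) =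
            ((B.adjugate * B) l l' : ℤ) * u (e l') := by
          intro l'
          rw [mul_apply]
          push_cast
          rw [sum_mul]
          exact sum_congr rfl fun i _ => by ring
        rw [sum_congr rfl fun l' _ => h4 l', adjugate_mul]
        rw [Finset.sum_eq_single l]
        · simp
        · intro b _ hb
          simp [one_apply_ne hb.symm]
        · simp
      have ht0 : t = 0 := by
        have h1 := hsolve j0
        have h3 : u (e j0) = 0 := by
          apply hu0
          rcases hcases j0 with h | h | h | h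
          · rw [h.1] at hj0; norm_num at hj0
          · rw [h.1] at hj0; norm_num at hj0
          · exact Or.inl h.2
          · exact Or.inr h.2
        rw [h3, mul_zero] at h1
        have h4 : (B.adjugate j0 i : ℝ) ≠ 0 := by
          have : B.adjugate j0 i ≠ 0 := by
            intro h0; rw [h0] at hj0; norm_num at hj0
          exact_mod_cast this
        exact (mul_eq_zero.1 h1.symm).resolve_left h4
      have hdR : (B.det : ℝ) ≠ 0 := by exact_mod_cast hdet
      ext j
      have h1 : u j = 0 := by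
        by_cases hj : ∃ l, e l = j
        · obtain ⟨l, rfl⟩ := hj
          have := hsolve l
          rw [ht0, mul_zero] at this
          exact (mul_eq_zero.1 this).resolve_left hdR
        · exact huo j hj
      rw [hu, Pi.add_apply, Pi.neg_apply] at h1
      linarith
    rw [hy2] at hv2
    have hA' : ∀ z : Fin n → ℝ, ∀ i', |ev (A i') z - ev (A i') y| ≤
        |ev (A i') z - ev (A i') y'| + 1 / 2 := by
      intro z i'
      have h1 : ev (A i') z - ev (A i') y = (ev (A i') z - ev (A i') y') - ev (A i') w := by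
        rw [hy', ev_add, ev_neg]; ring
      rw [h1]
      refine (abs_sub _ _).trans ?_
      linarith [hwA i']
    have hkeep : ∀ z : Fin n → ℤ, (∀ j, (y' j = 0 → z j = 0) ∧ (y' j = 1 → z j = 1)) →
        ∀ j, (y j = 0 → z j = 0) ∧ (y j = 1 → z j = 1) := by
      intro z hz j
      by_cases hj : ∃ l, e l = j
      · obtain ⟨l, rfl⟩ := hj
        rw [hyl l]
        norm_num
      · rw [← hy'o j hj]; exact hz j
    obtain ⟨Y2, hY2, hY201, hY2d⟩ := exists_num A y' hy'01 e2 r2 hv2
    rcases k2 with _ | k2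
    · obtain ⟨z, h1, h3, h4⟩ := finish_zero A y' hy'01 (fun j hj => by
        obtain ⟨l, _⟩ := (hv2.2.1 j).1 hj
        exact l.elim0)
      refine ⟨z, h1, hkeep z h3, fun i' => (hA' _ i').trans ?_⟩
      linarith [h4 i']
    · have hd3 : |(A.submatrix r2 e2).det| = 3 := by
        have h1 := hY2 0
        have h3 := hA _ r2 e2
        have h4 := hY201 0
        have h5 : y' (e2 0) = 1 / 3 ∨ y' (e2 0) = 2 / 3 := by
          have hf := (hv2.2.1 (e2 0)).2 ⟨0, rfl⟩
          by_cases hj : ∃ l, e l = e2 0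
          · obtain ⟨l, hl⟩ := hj
            rw [← hl] at hf ⊢
            rcases hcases l with h | h | h | h
            · exact Or.inl h.2
            · exact Or.inr h.2
            · rw [h.2] at hf; norm_num at hf
            · rw [h.2] at hf; norm_num at hf
          · rw [hy'o _ hj] at hf
            exact absurd ((hfr _).1 hf) hj
        have h6 : ∃ q : ℤ, |(A.submatrix r2 e2).det| = q := ⟨_, rfl⟩
        obtain ⟨q, hq⟩ := h6
        rw [← Int.cast_abs, hq] at h1
        rw [hq] at h3 h4 ⊢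
        rcases h5 with h5 | h5
        · rw [h5] at h1
          have : q = 3 * Y2 0 := by
            have : (q : ℝ) = 3 * (Y2 0 : ℝ) := by linarith
            exact_mod_cast this
          omega
        · rw [h5] at h1
          have : 2 * q = 3 * Y2 0 := by
            have : 2 * (q : ℝ) = 3 * (Y2 0 : ℝ) := by linarith
            exact_mod_cast this
          omega
      obtain ⟨z, h1, h3, h4⟩ := case_three A hA y' hy'01 e2 r2 hv2 hd3
      refine ⟨z, h1, hkeep z h3, fun i' => (hA' _ i').trans ?_⟩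
      linarith [h4 i']

end Three

end Pool.Agent.H97.BF
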