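import Pool.Agent.H97.ZL.Vertex

/-!
# Vertices of box polytopes of integer matrices (helper97)

`exists_vert`: a point `x` of the cube can be moved to a point `y` of the cube such that all
rows `A y` stay between the floor and the ceiling of `A x`, integral coordinates are kept, and
the fractional coordinates of `y` are determined by as many rows with integral values.
-/

set_option autoImplicit false

namespace Pool.Agent.H97.BF

open Finset Pool.Agent.H97.ZL

variable {m n : ℕ}

/-- `y` is obtained from `x` by rounding inside the cube: rows stay between floor and ceiling -/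
def Good (A : Matrix (Fin m) (Fin n) ℤ) (x y : Fin n → ℝ) : Prop :=
  (∀ j, 0 ≤ y j ∧ y j ≤ 1) ∧
  (∀ i, (⌊ev (A i) x⌋ : ℝ) ≤ ev (A i) y ∧ ev (A i) y ≤ ⌈ev (A i) x⌉) ∧
  ∀ j, (x j = 0 → y j = 0) ∧ (x j = 1 → y j = 1)

/-- the fractional coordinates `e` of `y` are determined by the rows `r`, with integral values -/
def VertAt (A : Matrix (Fin m) (Fin n) ℤ) (y : Fin n → ℝ) {k : ℕ} (e : Fin k → Fin n)
    (r : Fin k → Fin m) : Prop :=
  Function.Injective e ∧ (∀ j, (0 < y j ∧ y j < 1) ↔ ∃ l, e l = j) ∧
    (A.submatrix r e).det ≠ 0 ∧ ∀ i, ∃ c : ℤ, ev (A (r i)) y = c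

lemma Good.trans {A : Matrix (Fin m) (Fin n) ℤ} {x y z : Fin n → ℝ} (h1 : Good A x y)
    (h2 : Good A y z) : Good A x z := by
  refine ⟨h2.1, fun i => ⟨?_, ?_⟩, fun j => ⟨fun h => ?_, fun h => ?_⟩⟩
  · have h : (⌊ev (A i) x⌋ : ℤ) ≤ ⌊ev (A i) y⌋ := Int.le_floor.2 (h1.2.1 i).1
    have h' : ((⌊ev (A i) x⌋ : ℤ) : ℝ) ≤ (⌊ev (A i) y⌋ : ℤ) := by exact_mod_cast h
    exact h'.trans (h2.2.1 i).1
  · have h : (⌈ev (A i) y⌉ : ℤ) ≤ ⌈ev (A i) x⌉ := Int.ceil_le.2 (h1.2.1 i).2
    have h' : ((⌈ev (A i) y⌉ : ℤ) : ℝ) ≤ (⌈ev (A i) x⌉ : ℤ) := by exact_mod_cast h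
    exact (h2.2.1 i).2.trans h'
  · exact (h2.2.2 j).1 ((h1.2.2 j).1 h)
  · exact (h2.2.2 j).2 ((h1.2.2 j).2 h)

/-- a vector supported on the range of an injection -/
lemma ev_supp {k : ℕ} (a : Fin n → ℤ) (e : Fin k → Fin n) (he : Function.Injective e)
    (w : Fin n → ℝ) (hw : ∀ j, (¬ ∃ l, e l = j) → w j = 0) :
    ev a w = ev (fun l => a (e l)) (fun l => w (e l)) := by
  unfold ev
  symm
  apply Fintype.sum_of_injective e he
  · intro j hj
    rw [hw j (by simpa using hj), mul_zero]
  · intro l; rfl

lemma ev_int (a : Fin n → ℤ) (w : Fin n → ℝ) (hw : ∀ j, ∃ c : ℤ, w j = c) :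
    ∃ c : ℤ, ev a w = c := by
  choose c hc using hw
  refine ⟨∑ j, a j * c j, ?_⟩
  unfold ev
  push_cast
  exact sum_congr rfl fun j _ => by rw [hc j]

/-- the rest of the row is an integer -/
lemma ev_rest {k : ℕ} (a : Fin n → ℤ) (e : Fin k → Fin n) (he : Function.Injective e)
    (w : Fin n → ℝ) (hw : ∀ j, (¬ ∃ l, e l = j) → w j = 0 ∨ w j = 1) :
    ∃ c : ℤ, ev a w = ev (fun l => a (e l)) (fun l => w (e l)) + c := by
  classical
  set w1 : Fin n → ℝ := fun j => if ∃ l, e l = j then w j else 0 with hw1
  set w2 : Fin n → ℝ := fun j => if ∃ l, e l = j then 0 else w j with hw2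
  have hsum : w = w1 + w2 := by
    ext j
    simp only [hw1, hw2, Pi.add_apply]
    split_ifs <;> simp
  obtain ⟨c, hc⟩ := ev_int a w2 (by
    intro j
    simp only [hw2]
    split_ifs with h
    · exact ⟨0, by simp⟩
    · rcases hw j h with h' | h'
      · exact ⟨0, by simp [h']⟩
      · exact ⟨1, by simp [h']⟩)
  refine ⟨c, ?_⟩
  have h1 : ev a w1 = ev (fun l => a (e l)) (fun l => w (e l)) := by
    rw [ev_supp a e he w1 (fun j hj => by simp [hw1, hj])]
    congr 1
    ext l
    simp [hw1]
  have h3 : ev a w = ev a (w1 + w2) := by rw [← hsum]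
  rw [h3, ev_add, h1, hc]

theorem exists_vert (A : Matrix (Fin m) (Fin n) ℤ) (x : Fin n → ℝ)
    (hx : ∀ j, 0 ≤ x j ∧ x j ≤ 1) :
    ∃ y : Fin n → ℝ, Good A x y ∧ ∃ (k : ℕ) (e : Fin k → Fin n) (r : Fin k → Fin m),
      VertAt A y e r := by
  classical
  have main : ∀ N : ℕ, ∀ x : Fin n → ℝ, (∀ j, 0 ≤ x j ∧ x j ≤ 1) →
      (univ.filter fun j => 0 < x j ∧ x j < 1).card = N →
      ∃ y : Fin n → ℝ, Good A x y ∧ ∃ (k : ℕ) (e : Fin k → Fin n) (r : Fin k → Fin m),
        VertAt A y e r := by
    intro N
    induction N using Nat.strong_induction_on with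
    | _ N ih =>
    intro x hx hN
    set F := univ.filter fun j => 0 < x j ∧ x j < 1 with hF
    obtain ⟨e, einj, erange'⟩ : ∃ e : Fin N → Fin n, Function.Injective e ∧
        ∀ j, (∃ l, e l = j) ↔ j ∈ F := by
      refine ⟨F.orderEmbOfFin hN, (F.orderEmbOfFin hN).injective, fun j => ?_⟩
      have h1 := Finset.range_orderEmbOfFin F hN
      have h2 : j ∈ Set.range (F.orderEmbOfFin hN) ↔ j ∈ (F : Set (Fin n)) := by rw [h1]
      rw [Set.mem_range] at h2
      rw [h2]
      simp
    have erange : ∀ j, (∃ l, e l = j) ↔ (0 < x j ∧ x j < 1) := by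
      intro j
      rw [erange' j]
      simp [hF]
    have hout : ∀ j, (¬ ∃ l, e l = j) → x j = 0 ∨ x j = 1 := by
      intro j hj
      rw [erange] at hj
      by_contra hcon
      push Not at hcon
      exact hj ⟨lt_of_le_of_ne (hx j).1 (Ne.symm hcon.1), lt_of_le_of_ne (hx j).2 hcon.2⟩
    -- the small problem
    let a : Fin m ⊕ Fin N → Fin N → ℤ :=
      Sum.elim (fun i l => A i (e l)) (fun l => Pi.single l 1)
    let x' : Fin N → ℝ := fun l => x (e l)
    let lo : Fin m ⊕ Fin N → ℤ := Sum.elim (fun i => ⌊ev (fun l => A i (e l)) x'⌋) (fun _ => 0)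
    let hi : Fin m ⊕ Fin N → ℤ := Sum.elim (fun i => ⌈ev (fun l => A i (e l)) x'⌉) (fun _ => 1)
    have hsingle : ∀ (l : Fin N) (u : Fin N → ℝ), ev (Pi.single l 1) u = u l := by
      intro l u
      unfold ev
      rw [Finset.sum_eq_single l]
      · simp
      · intro b _ hb; simp [hb]
      · simp
    obtain ⟨u, hu, -, f, hdet, hint⟩ := exists_vertex a
      (by
        intro v hv
        ext l
        have := hv (Sum.inr l)
        simpa [a, hsingle] using this) lo hi 0 x'
      (by
        rintro (i | l)
        · exact ⟨Int.floor_le _, Int.le_ceil _⟩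
        · simp only [a, lo, hi, Sum.elim_inr, hsingle]
          exact ⟨by simpa using (hx (e l)).1, by simpa using (hx (e l)).2⟩)
    set y : Fin n → ℝ := Function.extend e u x with hy
    have hye : ∀ l, y (e l) = u l := fun l => einj.extend_apply u x l
    have hyo : ∀ j, (¬ ∃ l, e l = j) → y j = x j := fun j hj =>
      Function.extend_apply' u x j hj
    have hu01 : ∀ l, 0 ≤ u l ∧ u l ≤ 1 := by
      intro l
      have := hu (Sum.inr l)
      simp only [a, lo, hi, Sum.elim_inr, hsingle] at this
      simpa using this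
    have hgood : Good A x y := by
      refine ⟨fun j => ?_, fun i => ?_, fun j => ?_⟩
      · by_cases hj : ∃ l, e l = j
        · obtain ⟨l, rfl⟩ := hj
          rw [hye]; exact hu01 l
        · rw [hyo j hj]; exact hx j
      · obtain ⟨c, hc⟩ := ev_rest (A i) e einj x hout
        have h1 : ev (A i) y = ev (fun l => A i (e l)) u + c := by
          have h2 : ev (A i) (y - x) = ev (fun l => A i (e l)) (fun l => (y - x) (e l)) :=
            ev_supp (A i) e einj (y - x) (fun j hj => by simp [hyo j hj])
          have h3 : (fun l => (y - x) (e l)) = u - x' := by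
            ext l; simp [hye, x']
          have h4 : ev (A i) (y - x) = ev (A i) y - ev (A i) x := by
            rw [sub_eq_add_neg, ev_add, ev_neg, sub_eq_add_neg]
          have h5 : ev (fun l => A i (e l)) (u - x') =
              ev (fun l => A i (e l)) u - ev (fun l => A i (e l)) x' := by
            rw [sub_eq_add_neg, ev_add, ev_neg, sub_eq_add_neg]
          rw [h4, h3, h5] at h2
          have hc' : ev (A i) x = ev (fun l => A i (e l)) x' + c := hc
          linarith
        have h2 := hu (Sum.inl i)
        simp only [a, lo, hi, Sum.elim_inl] at h2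
        have hc' : ev (A i) x = ev (fun l => A i (e l)) x' + c := hc
        rw [hc', h1, Int.floor_add_intCast, Int.ceil_add_intCast]
        push_cast
        constructor
        · linarith [h2.1]
        · linarith [h2.2]
      · have : ¬ (0 < x j ∧ x j < 1) → y j = x j := by
          intro h
          apply hyo
          rw [erange]
          exact h
        constructor
        · intro h
          rw [this (by rw [h]; simp), h]
        · intro h
          rw [this (by rw [h]; simp), h]
    by_cases hall : ∀ l, 0 < u l ∧ u l < 1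
    · -- vertex
      have hf : ∀ l, ∃ i, f l = Sum.inl i := by
        intro l
        rcases hfl : f l with i | l'
        · exact ⟨i, rfl⟩
        · exfalso
          obtain ⟨c, hc⟩ := hint l
          rw [hfl] at hc
          simp only [a, Sum.elim_inr, hsingle] at hc
          have h1 := hall l'
          rw [hc] at h1
          have h2 : (0 : ℤ) < c := by exact_mod_cast h1.1
          have h3 : c < (1 : ℤ) := by exact_mod_cast h1.2
          omega
      choose r hr using hf
      refine ⟨y, hgood, N, e, r, einj, fun j => ?_, ?_, fun i => ?_⟩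
      · constructor
        · intro h
          by_contra hj
          rw [hyo j hj] at h
          exact hj ((erange j).2 h)
        · rintro ⟨l, rfl⟩
          rw [hye]; exact hall l
      · have : (Matrix.of fun i => a (f i)) = A.submatrix r e := by
          ext i j
          simp [hr i, a]
        rw [← this]; exact hdet
      · obtain ⟨c, hc⟩ := hint i
        rw [hr i] at hc
        simp only [a, Sum.elim_inl] at hc
        obtain ⟨c', hc'⟩ := ev_rest (A (r i)) e einj y (fun j hj => by
          rw [hyo j hj]; exact hout j hj)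
        refine ⟨c + c', ?_⟩
        rw [hc']
        push_cast
        congr 1
        rw [← hc]
        congr 1
        ext l; exact hye l
    · push Not at hall
      obtain ⟨l0, hl0⟩ := hall
      have hlt : (univ.filter fun j => 0 < y j ∧ y j < 1).card < N := by
        rw [← hN]
        apply Finset.card_lt_card
        constructor
        · intro j hj
          simp only [mem_filter, mem_univ, true_and, hF] at hj ⊢
          by_contra hcon
          have : y j = x j := hyo j (by rw [erange]; exact hcon)
          rw [this] at hj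
          exact hcon hj
        · intro hsub
          have h1 : e l0 ∈ F := by
            simp only [hF, mem_filter, mem_univ, true_and]
            exact (erange _).1 ⟨l0, rfl⟩
          have h2 := hsub h1
          simp only [mem_filter, mem_univ, true_and] at h2
          rw [hye] at h2
          exact absurd h2.2 (not_lt.2 (hl0 h2.1))
      obtain ⟨y', hy', hv⟩ := ih _ hlt y hgood.1 rfl
      exact ⟨y', hgood.trans hy', hv⟩
  exact main _ x hx rfl

end Pool.Agent.H97.BF
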